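import Pool.Agent.Helper25.SH.Defs2

/-!
# MP_506470_co, finite clique number, module H2: ladders and the first separation
-/

namespace SetHom

variable {V : Type}

/-- a clique contained in `Λ ∪ t`, with `t` independent, is small -/
theorem h2_card_le {G : SimpleGraph V} [DecidableEq V] {K Λ t : Finset V}
    (hK : G.IsClique (K : Set V)) (hKs : K ⊆ Λ ∪ t) (hti : Indep G t) : K.card ≤ Λ.card + 1 := by
  have h1 : (K \ Λ).card ≤ 1 := by
    rw [Finset.card_le_one]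
    intro x hx y hy
    by_contra hxy
    have hx' := Finset.mem_sdiff.1 hx
    have hy' := Finset.mem_sdiff.1 hy
    have hxt : x ∈ t := by
      rcases Finset.mem_union.1 (hKs hx'.1) with h | h
      · exact absurd h hx'.2
      · exact h
    have hyt : y ∈ t := by
      rcases Finset.mem_union.1 (hKs hy'.1) with h | h
      · exact absurd h hy'.2
      · exact h
    exact hti x hxt y hyt (hK (Finset.mem_coe.2 hx'.1) (Finset.mem_coe.2 hy'.1) hxy)
  have h2 : (K ∩ Λ).card ≤ Λ.card := Finset.card_le_card Finset.inter_subset_right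
  have h3 := Finset.card_inter_add_card_sdiff K Λ
  omega

/-- adding to a `K_n`-free set a clique `Λ` with at most `n-2` elements, which is joined only to
an independent set -/
theorem h2_free_union {G : SimpleGraph V} [DecidableEq V] {n : ℕ} {D Λ t : Finset V}
    (hD : G.CliqueFreeOn (D : Set V) n) (hti : Indep G t) (hΛ : Λ.card + 1 < n)
    (hadj : ∀ l ∈ Λ, ∀ x ∈ D, G.Adj l x → x ∈ t) :
    G.CliqueFreeOn ((D ∪ Λ : Finset V) : Set V) n := by
  intro K hKs hK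
  have hKs' : K ⊆ D ∪ Λ := by exact_mod_cast hKs
  by_cases hl : ∃ l ∈ K, l ∈ Λ
  · obtain ⟨l, hlK, hlΛ⟩ := hl
    have hsub : K ⊆ Λ ∪ t := by
      intro x hx
      rcases Finset.mem_union.1 (hKs' hx) with hxD | hxΛ
      · by_cases hxl : x = l
        · rw [hxl]; exact Finset.mem_union_left _ hlΛ
        · exact Finset.mem_union_right _ (hadj l hlΛ x hxD
            (hK.isClique (Finset.mem_coe.2 hlK) (Finset.mem_coe.2 hx) (Ne.symm hxl)))
      · exact Finset.mem_union_left _ hxΛ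
    have := h2_card_le hK.isClique hsub hti
    rw [hK.card_eq] at this
    omega
  · push Not at hl
    refine hD (t := K) ?_ hK
    intro x hx
    rcases Finset.mem_union.1 (hKs' hx) with hxD | hxΛ
    · exact Finset.mem_coe.2 hxD
    · exact absurd hxΛ (hl x hx)

theorem h2_free_of_sub {G : SimpleGraph V} [DecidableEq V] {n : ℕ} {Λ t : Finset V}
    (hti : Indep G t) (hΛ : Λ.card + 1 < n) :
    G.CliqueFreeOn ((t ∪ Λ : Finset V) : Set V) n := by
  intro K hKs hK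
  have hKs' : K ⊆ Λ ∪ t := by
    intro x hx
    have := hKs (Finset.mem_coe.2 hx)
    rw [Finset.mem_coe, Finset.mem_union] at this
    exact Finset.mem_union.2 this.symm
  have := h2_card_le hK.isClique hKs' hti
  rw [hK.card_eq] at this
  omega

theorem Gen.ladder {G : SimpleGraph V} {n : ℕ} (h : Gen n G) (D t F : Finset V)
    (hD : G.CliqueFreeOn (D : Set V) n) (ht : t ⊆ D) (hti : Indep G t) :
    ∃ Λ : Finset V, G.IsNClique (n - 2) Λ ∧ Disjoint Λ D ∧ Disjoint Λ F ∧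
      ∀ l ∈ Λ, ∀ x ∈ D, (G.Adj l x ↔ x ∈ t) := by
  classical
  have hn := h.hn
  have key : ∀ k, k ≤ n - 2 → ∃ Λ : Finset V, G.IsNClique k Λ ∧ Disjoint Λ D ∧ Disjoint Λ F ∧
      ∀ l ∈ Λ, ∀ x ∈ D, (G.Adj l x ↔ x ∈ t) := by
    intro k
    induction k with
    | zero =>
      intro _
      refine ⟨∅, ?_, by simp, by simp, by simp⟩
      rw [SimpleGraph.isNClique_iff]
      simp
    | succ k ih =>
      intro hk
      obtain ⟨Λ, hΛ, hΛD, hΛF, hadj⟩ := ih (by omega)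
      have hc : Λ.card + 1 < n - 1 := by
        rw [hΛ.card_eq]; omega
      obtain ⟨c, hcF, hcD, hc'⟩ := h.ext (D ∪ Λ) (t ∪ Λ) F
        (h2_free_union hD hti (by omega) (fun l hl x hx hlx => (hadj l hl x hx).1 hlx))
        (Finset.union_subset_union ht (Finset.Subset.refl _))
        (h2_free_of_sub hti hc)
      rw [Finset.mem_union, not_or] at hcD
      refine ⟨insert c Λ, ?_, ?_, ?_, ?_⟩
      · exact hΛ.insert (fun b hb => (hc' b (Finset.mem_union_right _ hb)).2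
          (Finset.mem_union_right _ hb))
      · rw [Finset.disjoint_insert_left]; exact ⟨hcD.1, hΛD⟩
      · rw [Finset.disjoint_insert_left]; exact ⟨hcF, hΛF⟩
      · intro l hl x hx
        rcases Finset.mem_insert.1 hl with rfl | hl
        · rw [hc' x (Finset.mem_union_left _ hx), Finset.mem_union]
          constructor
          · rintro (h1 | h1)
            · exact h1
            · exact absurd hx (Finset.disjoint_left.1 hΛD h1)
          · intro h1; exact Or.inl h1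
        · exact hadj l hl x hx
  exact key (n - 2) le_rfl

/-- the pattern of the first separation -/
structure h2_Pat (G : SimpleGraph V) (n : ℕ) (Λ : Finset V) (w₁ w₂ ρ : V) : Prop where
  cl : G.IsNClique (n - 2) Λ
  a1 : ∀ l ∈ Λ, G.Adj w₁ l
  a2 : ∀ l ∈ Λ, G.Adj w₂ l
  ne : w₁ ≠ w₂
  na : ¬ G.Adj w₁ w₂
  rΛ : ρ ∉ Λ
  rl : ∀ l ∈ Λ, ¬ G.Adj ρ l
  r1 : ¬ G.Adj ρ w₁
  r2 : ¬ G.Adj ρ w₂
  r1' : ρ ≠ w₁
  r2' : ρ ≠ w₂

theorem h2_star {G : SimpleGraph V} {n : ℕ} (h : Gen n G) {Λ Λ' : Finset V}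
    {w₁ w₂ ρ w₁' w₂' ρ' : V} (hP : h2_Pat G n Λ w₁ w₂ ρ) (hP' : h2_Pat G n Λ' w₁' w₂' ρ')
    (hall : ∀ κ, (∀ l ∈ Λ, G.Adj κ l) → G.Adj κ w₁ → G.Adj κ w₂ → G.Adj κ ρ)
    (κ : V) (h0 : ∀ l ∈ Λ', G.Adj κ l) (h1 : G.Adj κ w₁') (h2 : G.Adj κ w₂') :
    G.Adj κ ρ' := by
  classical
  have hn := h.hn
  have hw1Λ : w₁ ∉ Λ := fun hm => (hP.a1 _ hm).ne rfl
  have hw2Λ : w₂ ∉ Λ := fun hm => (hP.a2 _ hm).ne rfl
  have hw1Λ' : w₁' ∉ Λ' := fun hm => (hP'.a1 _ hm).ne rfl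
  have hw2Λ' : w₂' ∉ Λ' := fun hm => (hP'.a2 _ hm).ne rfl
  obtain ⟨l₀, hl₀⟩ : Λ.Nonempty := by
    rw [← Finset.card_pos, hP.cl.card_eq]; omega
  have hcard : Λ.card = Λ'.card := by rw [hP.cl.card_eq, hP'.cl.card_eq]
  let e : Λ ≃ Λ' := Finset.equivOfCardEq hcard
  let f : V → V := fun x => if x = w₁ then w₁' else if x = w₂ then w₂' else
    if x = ρ then ρ' else if hx : x ∈ Λ then (e ⟨x, hx⟩ : V) else x
  have f1 : f w₁ = w₁' := if_pos rfl
  have f2 : f w₂ = w₂' := by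
    show (if w₂ = w₁ then w₁' else if w₂ = w₂ then w₂' else
      if w₂ = ρ then ρ' else if hx : w₂ ∈ Λ then (e ⟨w₂, hx⟩ : V) else w₂) = w₂'
    rw [if_neg hP.ne.symm, if_pos rfl]
  have f3 : f ρ = ρ' := by
    show (if ρ = w₁ then w₁' else if ρ = w₂ then w₂' else
      if ρ = ρ then ρ' else if hx : ρ ∈ Λ then (e ⟨ρ, hx⟩ : V) else ρ) = ρ'
    rw [if_neg hP.r1', if_neg hP.r2', if_pos rfl]
  have f4 : ∀ x (hx : x ∈ Λ), f x = (e ⟨x, hx⟩ : V) := by
    intro x hx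
    have n1 : x ≠ w₁ := fun hh => hw1Λ (hh ▸ hx)
    have n2 : x ≠ w₂ := fun hh => hw2Λ (hh ▸ hx)
    have n3 : x ≠ ρ := fun hh => hP.rΛ (hh ▸ hx)
    show (if x = w₁ then w₁' else if x = w₂ then w₂' else
      if x = ρ then ρ' else if hx : x ∈ Λ then (e ⟨x, hx⟩ : V) else x) = _
    rw [if_neg n1, if_neg n2, if_neg n3, dif_pos hx]
  have f4' : ∀ x, x ∈ Λ → f x ∈ Λ' := by
    intro x hx; rw [f4 x hx]; exact (e ⟨x, hx⟩).2
  have f4inj : ∀ x, x ∈ Λ → ∀ y, y ∈ Λ → f x = f y → x = y := by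
    intro x hx y hy hxy
    rw [f4 x hx, f4 y hy] at hxy
    have := e.injective (Subtype.ext hxy)
    exact congrArg Subtype.val this
  have f4surj : ∀ y ∈ Λ', ∃ x ∈ Λ, f x = y := by
    intro y hy
    obtain ⟨x, hx⟩ := e.surjective ⟨y, hy⟩
    refine ⟨x.1, x.2, ?_⟩
    rw [f4 x.1 x.2]
    exact congrArg Subtype.val hx
  -- the whole pattern
  let S1 : Finset V := insert w₁ (insert w₂ Λ)
  let S : Finset V := insert ρ S1
  have hS : ∀ x, x ∈ S ↔ x = ρ ∨ x = w₁ ∨ x = w₂ ∨ x ∈ Λ := by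
    intro x; simp [S, S1]
  have hS1 : ∀ x, x ∈ S1 ↔ x = w₁ ∨ x = w₂ ∨ x ∈ Λ := by
    intro x; simp [S1]
  have hρS1 : ∀ x ∈ S1, ¬ G.Adj ρ x ∧ ρ ≠ x := by
    intro x hx
    rcases (hS1 x).1 hx with rfl | rfl | hx
    · exact ⟨hP.r1, hP.r1'⟩
    · exact ⟨hP.r2, hP.r2'⟩
    · exact ⟨hP.rl x hx, fun h => hP.rΛ (h ▸ hx)⟩
  have hND : NonDom G S := by
    intro s hs
    by_cases hsρ : s = ρ
    · subst hsρ
      exact ⟨w₁, (hS _).2 (Or.inr (Or.inl rfl)), hP.r1'.symm, hP.r1⟩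
    · have hs1 : s ∈ S1 := by
        rcases (hS s).1 hs with h | h
        · exact absurd h hsρ
        · exact (hS1 s).2 h
      exact ⟨ρ, (hS _).2 (Or.inl rfl), (hρS1 s hs1).2, fun hh => (hρS1 s hs1).1 hh.symm⟩
  have hneΛ1 : ∀ x ∈ Λ', w₁' ≠ x := fun x hx h => hw1Λ' (h ▸ hx)
  have hneΛ2 : ∀ x ∈ Λ', w₂' ≠ x := fun x hx h => hw2Λ' (h ▸ hx)
  have hneΛr : ∀ x ∈ Λ', ρ' ≠ x := fun x hx h => hP'.rΛ (h ▸ hx)
  have hinj : Set.InjOn f S := by
    intro x hx y hy hxy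
    rcases (hS x).1 hx with rfl | rfl | rfl | hx' <;>
      rcases (hS y).1 hy with rfl | rfl | rfl | hy'
    · rfl
    · rw [f3, f1] at hxy; exact absurd hxy hP'.r1'
    · rw [f3, f2] at hxy; exact absurd hxy hP'.r2'
    · rw [f3] at hxy; exact absurd hxy (hneΛr _ (f4' y hy'))
    · rw [f3, f1] at hxy; exact absurd hxy.symm hP'.r1'
    · rfl
    · rw [f2, f1] at hxy; exact absurd hxy hP'.ne
    · rw [f1] at hxy; exact absurd hxy (hneΛ1 _ (f4' y hy'))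
    · rw [f3, f2] at hxy; exact absurd hxy.symm hP'.r2'
    · rw [f2, f1] at hxy; exact absurd hxy.symm hP'.ne
    · rfl
    · rw [f2] at hxy; exact absurd hxy (hneΛ2 _ (f4' y hy'))
    · rw [f3] at hxy; exact absurd hxy.symm (hneΛr _ (f4' x hx'))
    · rw [f1] at hxy; exact absurd hxy.symm (hneΛ1 _ (f4' x hx'))
    · rw [f2] at hxy; exact absurd hxy.symm (hneΛ2 _ (f4' x hx'))
    · exact f4inj x hx' y hy' hxy
  have hadj : ∀ x ∈ S, ∀ y ∈ S, (G.Adj (f x) (f y) ↔ G.Adj x y) := by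
    intro x hx y hy
    have c1 : ∀ z ∈ Λ, (G.Adj (f w₁) (f z) ↔ G.Adj w₁ z) := by
      intro z hz; rw [f1]
      exact ⟨fun _ => hP.a1 z hz, fun _ => hP'.a1 _ (f4' z hz)⟩
    have c2 : ∀ z ∈ Λ, (G.Adj (f w₂) (f z) ↔ G.Adj w₂ z) := by
      intro z hz; rw [f2]
      exact ⟨fun _ => hP.a2 z hz, fun _ => hP'.a2 _ (f4' z hz)⟩
    have c3 : ∀ z ∈ Λ, (G.Adj (f ρ) (f z) ↔ G.Adj ρ z) := by
      intro z hz; rw [f3]
      exact ⟨fun hh => absurd hh (hP'.rl _ (f4' z hz)), fun hh => absurd hh (hP.rl z hz)⟩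
    have c4 : G.Adj (f w₁) (f w₂) ↔ G.Adj w₁ w₂ := by
      rw [f1, f2]
      exact ⟨fun hh => absurd hh hP'.na, fun hh => absurd hh hP.na⟩
    have c5 : G.Adj (f ρ) (f w₁) ↔ G.Adj ρ w₁ := by
      rw [f1, f3]
      exact ⟨fun hh => absurd hh hP'.r1, fun hh => absurd hh hP.r1⟩
    have c6 : G.Adj (f ρ) (f w₂) ↔ G.Adj ρ w₂ := by
      rw [f2, f3]
      exact ⟨fun hh => absurd hh hP'.r2, fun hh => absurd hh hP.r2⟩
    rcases (hS x).1 hx with rfl | rfl | rfl | hx' <;>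
      rcases (hS y).1 hy with rfl | rfl | rfl | hy'
    · simp
    · exact c5
    · exact c6
    · exact c3 y hy'
    · rw [G.adj_comm, c5, G.adj_comm]
    · simp
    · exact c4
    · exact c1 y hy'
    · rw [G.adj_comm, c6, G.adj_comm]
    · rw [G.adj_comm, c4, G.adj_comm]
    · simp
    · exact c2 y hy'
    · rw [G.adj_comm, c3 x hx', G.adj_comm]
    · rw [G.adj_comm, c1 x hx', G.adj_comm]
    · rw [G.adj_comm, c2 x hx', G.adj_comm]
    · by_cases hxy : x = y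
      · subst hxy; simp
      · have g1 : G.Adj x y := hP.cl.isClique (Finset.mem_coe.2 hx') (Finset.mem_coe.2 hy') hxy
        have g2 : f x ≠ f y := fun hh => hxy (f4inj x hx' y hy' hh)
        have g3 : G.Adj (f x) (f y) := hP'.cl.isClique (Finset.mem_coe.2 (f4' x hx'))
          (Finset.mem_coe.2 (f4' y hy')) g2
        exact ⟨fun _ => g1, fun _ => g3⟩
  obtain ⟨φ, hφ⟩ := h.hW.map S hND f hinj hadj
  -- `φ ρ = f ρ`
  have hφS : ∀ x ∈ S, ∃ y ∈ S, φ x = f y := by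
    intro x hx
    have h3 : φ x ∈ f '' (S : Set V) := by
      rw [← hφ]; exact Set.mem_image_of_mem _ hx
    obtain ⟨y, hy, h4⟩ := h3
    exact ⟨y, hy, h4.symm⟩
  have hφS' : ∀ y ∈ S, ∃ x ∈ S, φ x = f y := by
    intro y hy
    have h3 : f y ∈ φ '' (S : Set V) := by
      rw [hφ]; exact Set.mem_image_of_mem _ hy
    obtain ⟨x, hx, h4⟩ := h3
    exact ⟨x, hx, h4⟩
  have hnbr : ∀ y ∈ S1, ∃ y' ∈ S, G.Adj y y' := by
    intro y hy
    rcases (hS1 y).1 hy with rfl | rfl | hy'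
    · exact ⟨l₀, (hS _).2 (Or.inr (Or.inr (Or.inr hl₀))), hP.a1 _ hl₀⟩
    · exact ⟨l₀, (hS _).2 (Or.inr (Or.inr (Or.inr hl₀))), hP.a2 _ hl₀⟩
    · exact ⟨w₁, (hS _).2 (Or.inr (Or.inl rfl)), (hP.a1 y hy').symm⟩
  have hiso : ∀ x ∈ S, ¬ G.Adj ρ x := by
    intro x hx
    rcases (hS x).1 hx with rfl | hx'
    · simp
    · exact (hρS1 x ((hS1 x).2 hx')).1
  have hφρ : φ ρ = ρ' := by
    obtain ⟨y, hy, hyρ⟩ := hφS ρ ((hS _).2 (Or.inl rfl))
    by_cases hyr : y = ρ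
    · rw [hyρ, hyr, f3]
    · exfalso
      have hy1 : y ∈ S1 := by
        rcases (hS y).1 hy with h | h
        · exact absurd h hyr
        · exact (hS1 y).2 h
      obtain ⟨y', hy', hyy'⟩ := hnbr y hy1
      obtain ⟨x', hx', hx''⟩ := hφS' y' hy'
      have : G.Adj (f y) (f y') := (hadj y hy y' hy').2 hyy'
      rw [← hyρ, ← hx'', φ.map_adj_iff] at this
      exact hiso x' hx' this
  -- elements of `S1` go to elements of `f S1`
  have hφ1 : ∀ x ∈ S1, G.Adj κ (φ x) := by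
    intro x hx
    have hxS : x ∈ S := (hS x).2 (Or.inr ((hS1 x).1 hx))
    obtain ⟨y, hy, hyx⟩ := hφS x hxS
    rcases (hS y).1 hy with rfl | rfl | rfl | hy'
    · exfalso
      rw [f3, ← hφρ] at hyx
      exact (hρS1 x hx).2 (φ.injective hyx).symm
    · rw [hyx, f1]; exact h1
    · rw [hyx, f2]; exact h2
    · rw [hyx]; exact h0 _ (f4' y hy')
  have hκ : ∀ x, G.Adj κ (φ x) ↔ G.Adj (φ.symm κ) x := by
    intro x
    have h5 := φ.map_adj_iff (v := φ.symm κ) (w := x)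
    rw [φ.apply_symm_apply] at h5
    exact h5
  have := hall (φ.symm κ)
    (fun l hl => (hκ l).1 (hφ1 l ((hS1 l).2 (Or.inr (Or.inr hl)))))
    ((hκ w₁).1 (hφ1 w₁ ((hS1 w₁).2 (Or.inl rfl))))
    ((hκ w₂).1 (hφ1 w₂ ((hS1 w₂).2 (Or.inr (Or.inl rfl)))))
  rw [← hφρ]
  exact (hκ ρ).2 this

theorem Gen.k12 {G : SimpleGraph V} {n : ℕ} (h : Gen n G) (Λ : Finset V) (w₁ w₂ ρ : V)
    (hΛ : G.IsNClique (n - 2) Λ) (h1 : ∀ l ∈ Λ, G.Adj w₁ l) (h2 : ∀ l ∈ Λ, G.Adj w₂ l)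
    (h12 : w₁ ≠ w₂) (h12' : ¬ G.Adj w₁ w₂) (hρΛ : ρ ∉ Λ) (hρ : ∀ l ∈ Λ, ¬ G.Adj ρ l)
    (hρ1 : ¬ G.Adj ρ w₁) (hρ2 : ¬ G.Adj ρ w₂) (hρ1' : ρ ≠ w₁) (hρ2' : ρ ≠ w₂) :
    ∃ κ, (∀ l ∈ Λ, G.Adj κ l) ∧ G.Adj κ w₁ ∧ G.Adj κ w₂ ∧ ¬ G.Adj κ ρ := by
  classical
  by_contra hcon
  push Not at hcon
  have hn := h.hn
  have hP : h2_Pat G n Λ w₁ w₂ ρ := ⟨hΛ, h1, h2, h12, h12', hρΛ, hρ, hρ1, hρ2, hρ1', hρ2'⟩
  have hw1Λ : w₁ ∉ Λ := fun hm => (hP.a1 _ hm).ne rfl
  have hw2Λ : w₂ ∉ Λ := fun hm => (hP.a2 _ hm).ne rfl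
  obtain ⟨l₀, hl₀⟩ : Λ.Nonempty := by
    rw [← Finset.card_pos, hΛ.card_eq]; omega
  -- `S1` is free
  let S1 : Finset V := {w₁, w₂} ∪ Λ
  have hS1 : ∀ x, x ∈ S1 ↔ (x = w₁ ∨ x = w₂) ∨ x ∈ Λ := by
    intro x; simp [S1, or_assoc]
  have hi12 : Indep G ({w₁, w₂} : Finset V) := by
    intro x hx y hy
    simp only [Finset.mem_insert, Finset.mem_singleton] at hx hy
    rcases hx with rfl | rfl <;> rcases hy with rfl | rfl
    · simp
    · exact h12'
    · exact fun hh => h12' hh.symm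
    · simp
  have hS1free : G.CliqueFreeOn (S1 : Set V) n :=
    h2_free_of_sub hi12 (by rw [hΛ.card_eq]; omega)
  obtain ⟨κ, hκ⟩ := h.cn S1 hS1free
  have hκ1 : G.Adj κ w₁ := hκ _ ((hS1 _).2 (Or.inl (Or.inl rfl)))
  have hκ2 : G.Adj κ w₂ := hκ _ ((hS1 _).2 (Or.inl (Or.inr rfl)))
  have hκΛ : ∀ l ∈ Λ, G.Adj κ l := fun l hl => hκ _ ((hS1 _).2 (Or.inr hl))
  -- the vertex `u`
  have hκl : ({κ, l₀} : Finset V).card < n := lt_of_le_of_lt Finset.card_le_two (by omega)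
  obtain ⟨u, huF, huD, hu⟩ := h.ext {κ, l₀} ∅ S1
    (SimpleGraph.cliqueFreeOn_of_card_lt G hκl)
    (Finset.empty_subset _)
    (by
      rw [Finset.coe_empty, SimpleGraph.cliqueFreeOn_empty]; omega)
  have huκ : ¬ G.Adj u κ := fun hh => by
    have := (hu κ (by simp)).1 hh; simp at this
  have hul : ¬ G.Adj u l₀ := fun hh => by
    have := (hu l₀ (by simp)).1 hh; simp at this
  -- `S1 ∪ {u}` is free
  have hDfree : G.CliqueFreeOn ((insert u S1 : Finset V) : Set V) n := by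
    intro K hKs hK
    have hKs' : K ⊆ insert u S1 := by exact_mod_cast hKs
    by_cases huK : u ∈ K
    · have hlK : l₀ ∉ K := by
        intro hlK
        have hne : u ≠ l₀ := fun hh => huF (hh ▸ (hS1 l₀).2 (Or.inr hl₀))
        exact hul (hK.isClique (Finset.mem_coe.2 huK) (Finset.mem_coe.2 hlK) hne)
      have hsub : K ⊆ insert u (Λ.erase l₀) ∪ {w₁, w₂} := by
        intro x hx
        rw [Finset.mem_union, Finset.mem_insert, Finset.mem_erase, Finset.mem_insert,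
          Finset.mem_singleton]
        rcases Finset.mem_insert.1 (hKs' hx) with h3 | h3
        · exact Or.inl (Or.inl h3)
        · rcases (hS1 x).1 h3 with h4 | h4
          · exact Or.inr h4
          · exact Or.inl (Or.inr ⟨fun hh => hlK (hh ▸ hx), h4⟩)
      have h5 := h2_card_le hK.isClique hsub hi12
      have h6 : (insert u (Λ.erase l₀)).card ≤ Λ.card := by
        have := Finset.card_insert_le u (Λ.erase l₀)
        have h7 := Finset.card_erase_add_one hl₀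
        omega
      rw [hK.card_eq] at h5
      rw [hΛ.card_eq] at h6
      omega
    · refine hS1free (t := K) ?_ hK
      intro x hx
      rcases Finset.mem_insert.1 (hKs' hx) with h3 | h3
      · exact absurd (h3 ▸ hx) huK
      · exact Finset.mem_coe.2 h3
  -- a far copy of `S1`
  have hempty : Indep G (∅ : Finset V) := by intro x hx; simp at hx
  obtain ⟨v₁, -, hv1D, hv1⟩ := h.ext (insert u S1) ∅ ∅ hDfree (Finset.empty_subset _)
    (by
      rw [Finset.coe_empty, SimpleGraph.cliqueFreeOn_empty]; omega)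
  have hv1' : ∀ x ∈ insert u S1, ¬ G.Adj v₁ x := fun x hx hh => by
    have := (hv1 x hx).1 hh; simp at this
  have hfree2 : G.CliqueFreeOn ((insert u S1 ∪ {v₁} : Finset V) : Set V) n :=
    h2_free_union hDfree hempty (by rw [Finset.card_singleton]; omega)
      (by
        intro l hl x hx hlx
        rw [Finset.mem_singleton] at hl
        subst hl
        exact absurd hlx (hv1' x hx))
  have hiv1 : Indep G ({v₁} : Finset V) := by
    intro x hx y hy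
    rw [Finset.mem_singleton] at hx hy
    subst hx; subst hy; simp
  obtain ⟨Λ', hΛ', hΛD, -, hΛadj⟩ := h.ladder (insert u S1 ∪ {v₁}) {v₁} ∅ hfree2
    Finset.subset_union_right hiv1
  have hfree3 : G.CliqueFreeOn ((insert u S1 ∪ {v₁} ∪ Λ' : Finset V) : Set V) n :=
    h2_free_union hfree2 hiv1 (by rw [hΛ'.card_eq]; omega)
      (fun l hl x hx hlx => (hΛadj l hl x hx).1 hlx)
  obtain ⟨v₂, -, hv2D, hv2⟩ := h.ext (insert u S1 ∪ {v₁} ∪ Λ') Λ' ∅ hfree3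
    Finset.subset_union_right
    (SimpleGraph.cliqueFreeOn_of_card_lt G (by rw [hΛ'.card_eq]; omega))
  -- membership bookkeeping
  have mu : u ∈ insert u S1 := Finset.mem_insert_self _ _
  have mS : ∀ x ∈ S1, x ∈ insert u S1 := fun x hx => Finset.mem_insert_of_mem hx
  have m2 : ∀ x ∈ insert u S1, x ∈ insert u S1 ∪ {v₁} := fun x hx => Finset.mem_union_left _ hx
  have m3 : ∀ x ∈ insert u S1 ∪ {v₁}, x ∈ insert u S1 ∪ {v₁} ∪ Λ' :=
    fun x hx => Finset.mem_union_left _ hx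
  have mv1 : v₁ ∈ insert u S1 ∪ {v₁} := Finset.mem_union_right _ (Finset.mem_singleton_self _)
  have hv1ne : ∀ x ∈ insert u S1, x ≠ v₁ := fun x hx hh => hv1D (hh ▸ hx)
  have hΛ'adj : ∀ l ∈ Λ', ∀ x ∈ insert u S1, ¬ G.Adj l x := by
    intro l hl x hx hlx
    have := (hΛadj l hl x (m2 x hx)).1 hlx
    rw [Finset.mem_singleton] at this
    exact hv1ne x hx this
  have hΛ'v1 : ∀ l ∈ Λ', G.Adj l v₁ := fun l hl =>
    (hΛadj l hl v₁ mv1).2 (Finset.mem_singleton_self _)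
  have hΛ'ne : ∀ l ∈ Λ', ∀ x ∈ insert u S1, x ≠ l := by
    intro l hl x hx hh
    exact Finset.disjoint_left.1 hΛD hl (hh ▸ m2 x hx)
  have hv2adj : ∀ x ∈ insert u S1, ¬ G.Adj v₂ x := by
    intro x hx hh
    have := (hv2 x (m3 x (m2 x hx))).1 hh
    exact hΛ'ne x this x hx rfl
  have hv2v1 : ¬ G.Adj v₂ v₁ := by
    intro hh
    have := (hv2 v₁ (m3 v₁ mv1)).1 hh
    exact Finset.disjoint_left.1 hΛD this mv1
  have hv2Λ : ∀ l ∈ Λ', G.Adj v₂ l := fun l hl =>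
    (hv2 l (Finset.mem_union_right _ hl)).2 hl
  have hv2ne : ∀ x ∈ insert u S1 ∪ {v₁}, x ≠ v₂ := fun x hx hh => hv2D (hh ▸ m3 x hx)
  -- each vertex of the far copy is adjacent to `κ`
  have hstar : ∀ r, (∀ x ∈ insert u S1, ¬ G.Adj r x) → (∀ x ∈ insert u S1, x ≠ r) →
      G.Adj κ r := by
    intro r hr hrne
    have s1 : w₁ ∈ insert u S1 := mS _ ((hS1 _).2 (Or.inl (Or.inl rfl)))
    have s2 : w₂ ∈ insert u S1 := mS _ ((hS1 _).2 (Or.inl (Or.inr rfl)))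
    have s3 : ∀ l ∈ Λ, l ∈ insert u S1 := fun l hl => mS _ ((hS1 _).2 (Or.inr hl))
    exact h2_star h hP
      ⟨hΛ, h1, h2, h12, h12', fun hh => hrne r (s3 r hh) rfl, fun l hl => hr l (s3 l hl),
        hr _ s1, hr _ s2, (hrne _ s1).symm, (hrne _ s2).symm⟩ hcon κ hκΛ hκ1 hκ2
  have k1 : G.Adj κ v₁ := hstar v₁ hv1' hv1ne
  have k2 : G.Adj κ v₂ := hstar v₂ hv2adj (fun x hx => hv2ne x (m2 x hx))
  have k3 : ∀ l ∈ Λ', G.Adj κ l := fun l hl => hstar l (hΛ'adj l hl) (hΛ'ne l hl)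
  have hPu : h2_Pat G n Λ' v₁ v₂ u := by
    refine ⟨hΛ', fun l hl => (hΛ'v1 l hl).symm, hv2Λ, hv2ne v₁ mv1, fun hh => hv2v1 hh.symm,
      fun hh => hΛ'ne u hh u mu rfl, fun l hl hh => hΛ'adj l hl u mu hh.symm,
      fun hh => hv1' u mu hh.symm, fun hh => hv2adj u mu hh.symm, hv1ne u mu,
      hv2ne u (m2 u mu)⟩
  exact huκ (h2_star h hP hPu hcon κ k3 k1 k2).symm

end SetHom
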