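import Pool.Agent.Helper52.SH.H2
import Pool.Agent.Helper76.SH.H3

/-!
# MP_506470_co, finite clique number, module H4: the extension property
-/

namespace SetHom

variable {V : Type}

/-- `b` is hit by `Y` -/
def h4_Hit (G : SimpleGraph V) (n : ℕ) (Y : Finset V) (b : V) : Prop :=
  ∃ K : Finset V, K ⊆ Y ∧ G.IsNClique (n - 1) K ∧ ∀ k ∈ K, G.Adj b k

theorem h4_hit_mono {G : SimpleGraph V} {n : ℕ} {Y Y' : Finset V} {b : V} (h : h4_Hit G n Y b)
    (hY : Y ⊆ Y') : h4_Hit G n Y' b := by
  obtain ⟨K, hK, h1, h2⟩ := h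
  exact ⟨K, hK.trans hY, h1, h2⟩

/-- either `b` is hit already, or `Y ∪ {b}` is free -/
theorem h4_hit_or {G : SimpleGraph V} [DecidableEq V] {n : ℕ} {Y : Finset V} (b : V)
    (hY : G.CliqueFreeOn (Y : Set V) n) :
    h4_Hit G n Y b ∨ G.CliqueFreeOn ((insert b Y : Finset V) : Set V) n := by
  by_cases hf : G.CliqueFreeOn ((insert b Y : Finset V) : Set V) n
  · exact Or.inr hf
  · left
    unfold SimpleGraph.CliqueFreeOn at hf
    push Not at hf
    obtain ⟨K, hKs, hK⟩ := hf
    have hKs' : K ⊆ insert b Y := by exact_mod_cast hKs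
    have hbK : b ∈ K := by
      by_contra hbK
      refine hY (t := K) ?_ hK
      intro x hx
      rcases Finset.mem_insert.1 (hKs' hx) with h3 | h3
      · exact absurd (h3 ▸ hx) hbK
      · exact Finset.mem_coe.2 h3
    refine ⟨K.erase b, ?_, ?_, ?_⟩
    · intro x hx
      rw [Finset.mem_erase] at hx
      rcases Finset.mem_insert.1 (hKs' hx.2) with h3 | h3
      · exact absurd h3 hx.1
      · exact h3
    · rw [SimpleGraph.isNClique_iff]
      refine ⟨hK.isClique.subset (Finset.coe_subset.2 (Finset.erase_subset _ _)), ?_⟩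
      rw [Finset.card_erase_of_mem hbK, hK.card_eq]
    · intro k hk
      rw [Finset.mem_erase] at hk
      exact hK.isClique (Finset.mem_coe.2 hbK) (Finset.mem_coe.2 hk.2) hk.1.symm

/-- a common neighbour of `Y` is not adjacent to a vertex hit by `Y` -/
theorem h4_hit_na {G : SimpleGraph V} {n : ℕ} (h : Gen n G) {Y : Finset V} {b x : V}
    (hb : h4_Hit G n Y b) (hx : ∀ y ∈ Y, G.Adj x y) : ¬ G.Adj x b := by
  classical
  intro hxb
  have hn := h.hn
  obtain ⟨K, hK, h1, h2⟩ := hb
  have h3 : G.IsNClique (n - 1 + 1) (insert b K) := h1.insert (fun k hk => h2 k hk)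
  have h4 : G.IsNClique (n - 1 + 1 + 1) (insert x (insert b K)) := by
    refine h3.insert (fun k hk => ?_)
    rcases Finset.mem_insert.1 hk with rfl | hk
    · exact hxb
    · exact hx k (hK hk)
  have h5 : n - 1 + 1 + 1 = n + 1 := by omega
  rw [h5] at h4
  exact h.hK _ h4

/-- one step of the construction -/
theorem h4_step {G : SimpleGraph V} [DecidableEq V] {n : ℕ} (h : Gen n G) {Y H : Finset V}
    (hY : G.CliqueFreeOn (Y : Set V) n) (hH : H ⊆ Y) (hHi : Indep G H)
    (hmeet : ∀ K : Finset V, K ⊆ Y → G.IsNClique (n - 1) K → ∃ x ∈ K, x ∈ H) (b : V)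
    (hb : b ∉ Y) (F : Finset V) :
    ∃ Y' H' : Finset V, Y ⊆ Y' ∧ G.CliqueFreeOn (Y' : Set V) n ∧ H' ⊆ Y' ∧ Indep G H' ∧
      (∀ K : Finset V, K ⊆ Y' → G.IsNClique (n - 1) K → ∃ x ∈ K, x ∈ H') ∧
      (∀ x ∈ Y', x ∉ Y → x ∉ F) ∧ h4_Hit G n Y' b := by
  have hn := h.hn
  rcases h4_hit_or b hY with hhit | hfree
  · exact ⟨Y, H, Finset.Subset.refl _, hY, hH, hHi, hmeet, fun x hx hx' => absurd hx hx', hhit⟩
  · have hib : Indep G ({b} : Finset V) := by
      intro x hx y hy
      rw [Finset.mem_singleton] at hx hy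
      subst hx; subst hy; simp
    obtain ⟨Λ, hΛ, hΛD, hΛF, hadj⟩ := h.ladder (insert b Y) {b} F hfree
      (by intro x hx; rw [Finset.mem_singleton] at hx; subst hx; exact Finset.mem_insert_self _ _)
      hib
    have hbΛ : ∀ l ∈ Λ, G.Adj b l := fun l hl =>
      ((hadj l hl b (Finset.mem_insert_self _ _)).2 (Finset.mem_singleton_self _)).symm
    have hYΛ : ∀ l ∈ Λ, ∀ y ∈ Y, ¬ G.Adj l y := by
      intro l hl y hy hh
      have := (hadj l hl y (Finset.mem_insert_of_mem hy)).1 hh
      rw [Finset.mem_singleton] at this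
      exact hb (this ▸ hy)
    have hYΛ' : ∀ y ∈ Y, y ∉ Λ := fun y hy hh =>
      Finset.disjoint_left.1 hΛD hh (Finset.mem_insert_of_mem hy)
    obtain ⟨x', hxF, hxb, hxΛ, hxH⟩ := h.ostar b Λ H (F ∪ Y) hΛ hbΛ hHi
      (fun x hx => ⟨hYΛ' x (hH hx), fun l hl hh => hYΛ l hl x (hH hx) hh.symm⟩)
      (fun hh => hb (hH hh))
    rw [Finset.mem_union, not_or] at hxF
    have hxΛ' : x' ∉ Λ := fun hh => (hxΛ x' hh).ne rfl
    refine ⟨Y ∪ insert x' Λ, insert x' H, Finset.subset_union_left, ?_, ?_, ?_, ?_, ?_, ?_⟩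
    · intro K hKs hK
      have hKs' : K ⊆ Y ∪ insert x' Λ := by exact_mod_cast hKs
      by_cases hl : ∃ l ∈ K, l ∈ Λ
      · obtain ⟨l, hlK, hlΛ⟩ := hl
        have hsub : K ⊆ insert x' Λ := by
          intro y hy
          rcases Finset.mem_union.1 (hKs' hy) with h1 | h1
          · exfalso
            have hne : l ≠ y := fun hh => hYΛ' y h1 (hh ▸ hlΛ)
            exact hYΛ l hlΛ y h1
              (hK.isClique (Finset.mem_coe.2 hlK) (Finset.mem_coe.2 hy) hne)
          · exact h1
        have h1 := Finset.card_le_card hsub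
        rw [Finset.card_insert_of_notMem hxΛ', hΛ.card_eq, hK.card_eq] at h1
        omega
      · push Not at hl
        by_cases hxK : x' ∈ K
        · have hsub : K.erase x' ⊆ Y := by
            intro y hy
            rw [Finset.mem_erase] at hy
            rcases Finset.mem_union.1 (hKs' hy.2) with h1 | h1
            · exact h1
            · rcases Finset.mem_insert.1 h1 with h2 | h2
              · exact absurd h2 hy.1
              · exact absurd h2 (hl y hy.2)
          have hcl : G.IsNClique (n - 1) (K.erase x') := by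
            rw [SimpleGraph.isNClique_iff]
            refine ⟨hK.isClique.subset (Finset.coe_subset.2 (Finset.erase_subset _ _)), ?_⟩
            rw [Finset.card_erase_of_mem hxK, hK.card_eq]
          obtain ⟨y, hyK, hyH⟩ := hmeet _ hsub hcl
          rw [Finset.mem_erase] at hyK
          exact hxH y hyH (hK.isClique (Finset.mem_coe.2 hxK) (Finset.mem_coe.2 hyK.2)
            hyK.1.symm)
        · refine hY (t := K) ?_ hK
          intro y hy
          rcases Finset.mem_union.1 (hKs' hy) with h1 | h1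
          · exact Finset.mem_coe.2 h1
          · rcases Finset.mem_insert.1 h1 with h2 | h2
            · exact absurd (h2 ▸ hy) hxK
            · exact absurd h2 (hl y hy)
    · intro y hy
      rcases Finset.mem_insert.1 hy with rfl | hy
      · exact Finset.mem_union_right _ (Finset.mem_insert_self _ _)
      · exact Finset.mem_union_left _ (hH hy)
    · intro y hy z hz
      rcases Finset.mem_insert.1 hy with rfl | hy' <;>
        rcases Finset.mem_insert.1 hz with rfl | hz'
      · simp
      · exact hxH z hz'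
      · exact fun hh => hxH y hy' hh.symm
      · exact hHi y hy' z hz'
    · intro K hKs' hK
      by_cases hxK : x' ∈ K
      · exact ⟨x', hxK, Finset.mem_insert_self _ _⟩
      · by_cases hl : ∃ l ∈ K, l ∈ Λ
        · exfalso
          obtain ⟨l, hlK, hlΛ⟩ := hl
          have hsub : K ⊆ Λ := by
            intro y hy
            rcases Finset.mem_union.1 (hKs' hy) with h1 | h1
            · exfalso
              have hne : l ≠ y := fun hh => hYΛ' y h1 (hh ▸ hlΛ)
              exact hYΛ l hlΛ y h1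
                (hK.isClique (Finset.mem_coe.2 hlK) (Finset.mem_coe.2 hy) hne)
            · rcases Finset.mem_insert.1 h1 with h2 | h2
              · exact absurd (h2 ▸ hy) hxK
              · exact h2
          have h1 := Finset.card_le_card hsub
          rw [hΛ.card_eq, hK.card_eq] at h1
          omega
        · push Not at hl
          obtain ⟨y, hyK, hyH⟩ := hmeet K (by
            intro y hy
            rcases Finset.mem_union.1 (hKs' hy) with h1 | h1
            · exact h1
            · rcases Finset.mem_insert.1 h1 with h2 | h2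
              · exact absurd (h2 ▸ hy) hxK
              · exact absurd h2 (hl y hy)) hK
          exact ⟨y, hyK, Finset.mem_insert_of_mem hyH⟩
    · intro y hy hyY
      rcases Finset.mem_union.1 hy with h1 | h1
      · exact absurd h1 hyY
      · rcases Finset.mem_insert.1 h1 with h2 | h2
        · rw [h2]; exact hxF.1
        · exact Finset.disjoint_left.1 hΛF h2
    · refine ⟨insert x' Λ, Finset.subset_union_right, ?_, ?_⟩
      · have h1 := hΛ.insert (a := x') (fun l hl => hxΛ l hl)
        have h2 : n - 2 + 1 = n - 1 := by omega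
        rwa [h2] at h1
      · intro k hk
        rcases Finset.mem_insert.1 hk with rfl | hk
        · exact hxb.symm
        · exact hbΛ k hk

/-- a neighbour of `f` outside `R` -/
theorem h4_nbr {G : SimpleGraph V} {n : ℕ} (h : Gen n G) (R : Finset V) (f : V) :
    ∃ e, G.Adj e f ∧ e ∉ R := by
  classical
  have hn := h.hn
  have h1 : ({f} : Finset V).card < n := by rw [Finset.card_singleton]; omega
  have h2 : ({f} : Finset V).card < n - 1 := by rw [Finset.card_singleton]; omega
  obtain ⟨e, he, -, h3⟩ := h.ext {f} {f} R (SimpleGraph.cliqueFreeOn_of_card_lt G h1)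
    (Finset.Subset.refl _) (SimpleGraph.cliqueFreeOn_of_card_lt G h2)
  exact ⟨e, (h3 f (Finset.mem_singleton_self _)).2 (Finset.mem_singleton_self _), he⟩

theorem Gen.oall {G : SimpleGraph V} {n : ℕ} (h : Gen n G) (R W F : Finset V)
    (hR : G.IsNClique (n - 1) R) (hRW : Disjoint R W) :
    ∃ x, x ∉ F ∧ (∀ r ∈ R, G.Adj x r) ∧ ∀ y ∈ W, ¬ G.Adj x y := by
  classical
  have hn := h.hn
  choose e he heR using h4_nbr h R
  obtain ⟨ρ, hρ⟩ : R.Nonempty := by
    rw [← Finset.card_pos, hR.card_eq]; omega
  let Wp : Finset V := W ∪ F.image e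
  have hRWp : Disjoint R Wp := by
    rw [Finset.disjoint_union_right]
    refine ⟨hRW, ?_⟩
    rw [Finset.disjoint_right]
    intro x hx
    obtain ⟨f, -, rfl⟩ := Finset.mem_image.1 hx
    exact heR f
  have key : ∀ B' : Finset V, B' ⊆ Wp → ∃ Y H : Finset V, R ⊆ Y ∧
      G.CliqueFreeOn (Y : Set V) n ∧ H ⊆ Y ∧ Indep G H ∧
      (∀ K : Finset V, K ⊆ Y → G.IsNClique (n - 1) K → ∃ x ∈ K, x ∈ H) ∧ Disjoint Y Wp ∧
      ∀ b ∈ B', h4_Hit G n Y b := by
    intro B'
    induction B' using Finset.induction_on with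
    | empty =>
      intro _
      have hRc : R.card < n := by rw [hR.card_eq]; omega
      refine ⟨R, {ρ}, Finset.Subset.refl _, SimpleGraph.cliqueFreeOn_of_card_lt G hRc, ?_, ?_,
        ?_, hRWp, by simp⟩
      · intro x hx; rw [Finset.mem_singleton] at hx; subst hx; exact hρ
      · intro x hx y hy
        rw [Finset.mem_singleton] at hx hy
        subst hx; subst hy; simp
      · intro K hK hKc
        have hKR : K = R := Finset.eq_of_subset_of_card_le hK (by
          rw [hR.card_eq, hKc.card_eq])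
        exact ⟨ρ, hKR ▸ hρ, Finset.mem_singleton_self _⟩
    | insert b B' _ ih =>
      intro hB
      obtain ⟨Y, H, hRY, hY, hHY, hHi, hm, hd, hhit⟩ :=
        ih ((Finset.subset_insert _ _).trans hB)
      have hbW : b ∈ Wp := hB (Finset.mem_insert_self _ _)
      obtain ⟨Y', H', hYY', h1, h2, h3, h4, h5, h6⟩ := h4_step h hY hHY hHi hm b
        (fun hh => Finset.disjoint_left.1 hd hh hbW) Wp
      refine ⟨Y', H', hRY.trans hYY', h1, h2, h3, h4, ?_, ?_⟩
      · rw [Finset.disjoint_left]
        intro x hx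
        by_cases hxY : x ∈ Y
        · exact Finset.disjoint_left.1 hd hxY
        · exact h5 x hx hxY
      · intro b' hb'
        rcases Finset.mem_insert.1 hb' with rfl | hb'
        · exact h6
        · exact h4_hit_mono (hhit b' hb') hYY'
  obtain ⟨Y, H, hRY, hY, -, -, -, -, hhit⟩ := key Wp (Finset.Subset.refl _)
  obtain ⟨x, hx⟩ := h.cn Y hY
  have hna : ∀ b ∈ Wp, ¬ G.Adj x b := fun b hb => h4_hit_na h (hhit b hb) hx
  refine ⟨x, ?_, fun r hr => hx r (hRY hr), fun y hy => hna y (Finset.mem_union_left _ hy)⟩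
  intro hxF
  exact hna (e x) (Finset.mem_union_right _ (Finset.mem_image_of_mem e hxF)) (he x).symm

theorem h4_step2 {G : SimpleGraph V} [DecidableEq V] {n : ℕ} (h : Gen n G) {Y : Finset V}
    (hY : G.CliqueFreeOn (Y : Set V) n) (b : V) (hb : b ∉ Y) (F : Finset V) :
    ∃ Y' : Finset V, Y ⊆ Y' ∧ G.CliqueFreeOn (Y' : Set V) n ∧
      (∀ x ∈ Y', x ∉ Y → x ∉ F) ∧ h4_Hit G n Y' b := by
  have hn := h.hn
  rcases h4_hit_or b hY with hhit | hfree
  · exact ⟨Y, Finset.Subset.refl _, hY, fun x hx hx' => absurd hx hx', hhit⟩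
  · have hib : Indep G ({b} : Finset V) := by
      intro x hx y hy
      rw [Finset.mem_singleton] at hx hy
      subst hx; subst hy; simp
    obtain ⟨Λ, hΛ, hΛD, hΛF, hadj⟩ := h.ladder (insert b Y) {b} F hfree
      (by intro x hx; rw [Finset.mem_singleton] at hx; subst hx; exact Finset.mem_insert_self _ _)
      hib
    have hbΛ : ∀ l ∈ Λ, G.Adj b l := fun l hl =>
      ((hadj l hl b (Finset.mem_insert_self _ _)).2 (Finset.mem_singleton_self _)).symm
    have hYΛ : ∀ l ∈ Λ, ∀ y ∈ Y, ¬ G.Adj l y := by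
      intro l hl y hy hh
      have := (hadj l hl y (Finset.mem_insert_of_mem hy)).1 hh
      rw [Finset.mem_singleton] at this
      exact hb (this ▸ hy)
    have hYΛ' : ∀ y ∈ Y, y ∉ Λ := fun y hy hh =>
      Finset.disjoint_left.1 hΛD hh (Finset.mem_insert_of_mem hy)
    have hR : G.IsNClique (n - 1) (insert b Λ) := by
      have h1 := hΛ.insert (a := b) (fun l hl => hbΛ l hl)
      have h2 : n - 2 + 1 = n - 1 := by omega
      rwa [h2] at h1
    obtain ⟨x', hxF, hxR, hxY⟩ := h.oall (insert b Λ) Y (F ∪ Y) hR (by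
      rw [Finset.disjoint_insert_left]
      refine ⟨hb, ?_⟩
      rw [Finset.disjoint_right]
      exact hYΛ')
    rw [Finset.mem_union, not_or] at hxF
    have hxb : G.Adj x' b := hxR b (Finset.mem_insert_self _ _)
    have hxΛ : ∀ l ∈ Λ, G.Adj x' l := fun l hl => hxR l (Finset.mem_insert_of_mem hl)
    have hxΛ' : x' ∉ Λ := fun hh => (hxΛ x' hh).ne rfl
    have hanti : ∀ z ∈ insert x' Λ, ∀ y ∈ Y, ¬ G.Adj z y ∧ z ≠ y := by
      intro z hz y hy
      rcases Finset.mem_insert.1 hz with rfl | hz'
      · exact ⟨hxY y hy, fun hh => hxF.2 (hh ▸ hy)⟩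
      · exact ⟨hYΛ z hz' y hy, fun hh => hYΛ' y hy (hh ▸ hz')⟩
    refine ⟨Y ∪ insert x' Λ, Finset.subset_union_left, ?_, ?_, ?_⟩
    · intro K hKs hK
      have hKs' : K ⊆ Y ∪ insert x' Λ := by exact_mod_cast hKs
      by_cases hl : ∃ l ∈ K, l ∈ insert x' Λ
      · obtain ⟨l, hlK, hlΛ⟩ := hl
        have hsub : K ⊆ insert x' Λ := by
          intro y hy
          rcases Finset.mem_union.1 (hKs' hy) with h1 | h1
          · exact absurd (hK.isClique (Finset.mem_coe.2 hlK) (Finset.mem_coe.2 hy)
              (hanti l hlΛ y h1).2) (hanti l hlΛ y h1).1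
          · exact h1
        have h1 := Finset.card_le_card hsub
        rw [Finset.card_insert_of_notMem hxΛ', hΛ.card_eq, hK.card_eq] at h1
        omega
      · push Not at hl
        refine hY (t := K) ?_ hK
        intro y hy
        rcases Finset.mem_union.1 (hKs' hy) with h1 | h1
        · exact Finset.mem_coe.2 h1
        · exact absurd h1 (hl y hy)
    · intro y hy hyY
      rcases Finset.mem_union.1 hy with h1 | h1
      · exact absurd h1 hyY
      · rcases Finset.mem_insert.1 h1 with h2 | h2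
        · rw [h2]; exact hxF.1
        · exact Finset.disjoint_left.1 hΛF h2
    · refine ⟨insert x' Λ, Finset.subset_union_right, ?_, ?_⟩
      · have h1 := hΛ.insert (a := x') (fun l hl => hxΛ l hl)
        have h2 : n - 2 + 1 = n - 1 := by omega
        rwa [h2] at h1
      · intro k hk
        rcases Finset.mem_insert.1 hk with rfl | hk
        · exact hxb.symm
        · exact hbΛ k hk

theorem Gen.ext_univ {G : SimpleGraph V} {n : ℕ} (h : Gen n G) : EXT n G Set.univ := by
  classical
  intro A B _ _ hAB hA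
  have hn := h.hn
  choose e he heA using h4_nbr h A
  let Bp : Finset V := B ∪ B.image e
  have hABp : Disjoint A Bp := by
    rw [Finset.disjoint_union_right]
    refine ⟨hAB, ?_⟩
    rw [Finset.disjoint_right]
    intro x hx
    obtain ⟨f, -, rfl⟩ := Finset.mem_image.1 hx
    exact heA f
  have key : ∀ B' : Finset V, B' ⊆ Bp → ∃ Y : Finset V, A ⊆ Y ∧
      G.CliqueFreeOn (Y : Set V) n ∧ Disjoint Y Bp ∧ ∀ b ∈ B', h4_Hit G n Y b := by
    intro B'
    induction B' using Finset.induction_on with
    | empty =>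
      intro _
      exact ⟨A, Finset.Subset.refl _, hA, hABp, by simp⟩
    | insert b B' _ ih =>
      intro hB
      obtain ⟨Y, hAY, hY, hd, hhit⟩ := ih ((Finset.subset_insert _ _).trans hB)
      have hbW : b ∈ Bp := hB (Finset.mem_insert_self _ _)
      obtain ⟨Y', hYY', h1, h5, h6⟩ := h4_step2 h hY b
        (fun hh => Finset.disjoint_left.1 hd hh hbW) Bp
      refine ⟨Y', hAY.trans hYY', h1, ?_, ?_⟩
      · rw [Finset.disjoint_left]
        intro x hx
        by_cases hxY : x ∈ Y
        · exact Finset.disjoint_left.1 hd hxY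
        · exact h5 x hx hxY
      · intro b' hb'
        rcases Finset.mem_insert.1 hb' with rfl | hb'
        · exact h6
        · exact h4_hit_mono (hhit b' hb') hYY'
  obtain ⟨Y, hAY, hY, -, hhit⟩ := key Bp (Finset.Subset.refl _)
  obtain ⟨c, hc⟩ := h.cn Y hY
  have hna : ∀ b ∈ Bp, ¬ G.Adj c b := fun b hb => h4_hit_na h (hhit b hb) hc
  refine ⟨c, Set.mem_univ _, ?_, fun a ha => hc a (hAY ha),
    fun b hb => hna b (Finset.mem_union_left _ hb)⟩
  intro hcB
  exact hna (e c) (Finset.mem_union_right _ (Finset.mem_image_of_mem e hcB)) (he c).symm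

end SetHom
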